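import Pool.Agent.R858.SS.FreeChain

/-!
# MP_f887f5_ag: a recursively free arrangement whose third symbolic power is not in the square

The containment `J(A)^(2r-1) ⊆ J(A)^r` fails for `r = 2` for a recursively free arrangement `A` of
twelve planes in `ℂ³`, all defined over the rational numbers:

`z, x - z, x + z, y - z, y + z` and `x, y, x - y, x + y` and `y - 2x, y + 2x, y - 3x`.

The arrangement is even inductively free (only additions are used to reach it), so it is not the
dual Hesse arrangement, nor any other reflection arrangement.
-/

namespace Pool.Agent.Results.MP_f887f5_ag.TwelvePlanes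

open R858SS

theorem result : ∃ A : Finset (Submodule ℂ (Fin 3 → ℂ)),
    IsArrangement A ∧ A.card = 12 ∧ RecursivelyFree 3 A ∧
      ¬ symbolicPower A (2 * 2 - 1) ≤ J A ^ 2 :=
  ⟨A12, isArr, card_A12, indFree_A12.recursivelyFree, not_le⟩

end Pool.Agent.Results.MP_f887f5_ag.TwelvePlanes
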